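import Mathlib
import Pool.Agent.Results.MP_c6e9f4_al.Bounds

/-!
# A lower bound for the index of permutability of the symmetric groups

`Permutable G k` (file `Bounds.lean`): every `k`-tuple of elements of the group `G` has a
non-identity reordering with the same product.

The theorem: if `π(x) * x ^ 2 ≤ n`, where `π(x)` is the number of primes `p ≤ x`, then the index of
permutability `K` of the symmetric group on `n` letters satisfies `2 ^ x < (x + 1) * K ^ 3`. Hence
`K ≥ exp ((n log n) ^ (1 / 3) / 300)` for all `n`.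

The proof uses the `k`-tuple of affine permutations of the file `Bounds.lean`, modulo all maximal
prime powers `≤ x` (instead of all numbers `≤ 2 h`).
-/

set_option autoImplicit false

open scoped Nat.Prime

namespace Pool.Agent.Results.MP_c6e9f4_al.PrimeCountingLowerBound

open Pool.Agent.Results.MP_c6e9f4_al.Bounds (Permutable E D D_pos D_lt dvd_D)

section coprime

variable {ι : Type} [Fintype ι] (m : ι → ℕ)

theorem not_permutable_pi (hco : ∀ i j, i ≠ j → Nat.Coprime (m i) (m j)) (k : ℕ) (hk : 2 ≤ k)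
    (hkm : k ^ 3 ≤ ∏ i, m i) :
    ¬ Permutable (∀ i, Equiv.Perm (ZMod (m i) × ZMod (m i))) k := by
  intro hP
  obtain ⟨σ, hσ, e⟩ := hP (fun j i => E (m i) (j : ℕ))
  have hdiv : ∀ i, (m i : ℤ) ∣ D σ := by
    intro i
    have e1 := congrArg (Pi.evalMonoidHom
      (fun i => Equiv.Perm (ZMod (m i) × ZMod (m i))) i) e
    rw [map_list_prod, map_list_prod, List.map_ofFn, List.map_ofFn] at e1
    exact dvd_D (m i) σ e1
  have hpos := D_pos σ hσ
  have hlt := D_lt (by omega : 0 < k) σ
  have hprod : (∏ i, (m i : ℤ)) ∣ D σ := by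
    apply Finset.prod_dvd_of_coprime
    · intro i _ j _ hij
      exact Nat.isCoprime_iff_coprime.2 (hco i j hij)
    · intro i _
      exact hdiv i
  have hle := Int.le_of_dvd hpos hprod
  have h1 : ((k ^ 3 : ℕ) : ℤ) ≤ ((∏ i, m i : ℕ) : ℤ) := by exact_mod_cast hkm
  push_cast at h1
  linarith

theorem not_permutable_coprime [DecidableEq ι] [∀ i, NeZero (m i)]
    (hco : ∀ i j, i ≠ j → Nat.Coprime (m i) (m j)) (n k : ℕ)
    (hn : ∑ i, m i ^ 2 ≤ n) (hk : 2 ≤ k) (hkm : k ^ 3 ≤ ∏ i, m i) :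
    ¬ Permutable (Equiv.Perm (Fin n)) k := by
  intro hP
  have hcard : Fintype.card (Σ i : ι, ZMod (m i) × ZMod (m i)) ≤ Fintype.card (Fin n) := by
    rw [Fintype.card_sigma, Fintype.card_fin]
    refine le_trans (le_of_eq ?_) hn
    refine Finset.sum_congr rfl fun i _ => ?_
    rw [Fintype.card_prod, ZMod.card, sq]
  obtain ⟨emb⟩ := Function.Embedding.nonempty_of_card_le hcard
  let f : (∀ i, Equiv.Perm (ZMod (m i) × ZMod (m i))) →* Equiv.Perm (Fin n) :=
    (Equiv.Perm.viaEmbeddingHom emb).comp (Equiv.Perm.sigmaCongrRightHom _)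
  have hf : Function.Injective f :=
    (Equiv.Perm.viaEmbeddingHom_injective emb).comp Equiv.Perm.sigmaCongrRightHom_injective
  exact not_permutable_pi m hco k hk hkm
    (Pool.Agent.Results.MP_c6e9f4_al.Bounds.Permutable.of_injective f hf hP)

end coprime

theorem not_permutable_primes (x n k : ℕ) (hn : π x * x ^ 2 ≤ n) (hk : 2 ≤ k)
    (hkx : k ^ 3 ≤ Nat.lcmUpto x) : ¬ Permutable (Equiv.Perm (Fin n)) k := by
  let m : {p : ℕ // p ∈ Nat.primesLE x} → ℕ := fun p => (p : ℕ) ^ Nat.log (p : ℕ) x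
  have hp : ∀ p : {p : ℕ // p ∈ Nat.primesLE x}, (p : ℕ).Prime := fun p =>
    Nat.prime_of_mem_primesLE p.2
  have hne : ∀ p, NeZero (m p) := fun p => ⟨pow_ne_zero _ (hp p).ne_zero⟩
  refine not_permutable_coprime m ?_ n k ?_ hk ?_
  · intro p q hpq
    exact Nat.Coprime.pow _ _ ((Nat.coprime_primes (hp p) (hp q)).2 fun h => hpq (Subtype.ext h))
  · refine le_trans ?_ hn
    have h1 : ∀ p : {p : ℕ // p ∈ Nat.primesLE x}, m p ^ 2 ≤ x ^ 2 := by
      intro p
      apply Nat.pow_le_pow_left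
      apply Nat.pow_log_le_self
      have := Nat.le_of_mem_primesLE p.2
      have := (hp p).pos
      omega
    calc ∑ p, m p ^ 2 ≤ ∑ _p : {p : ℕ // p ∈ Nat.primesLE x}, x ^ 2 :=
          Finset.sum_le_sum fun p _ => h1 p
      _ = π x * x ^ 2 := by
          rw [Finset.sum_const, Finset.card_univ, Fintype.card_coe,
            Nat.primesLE_card_eq_primeCounting, smul_eq_mul]
  · rw [Nat.lcmUpto_eq_prod_pow_log] at hkx
    refine le_trans hkx (le_of_eq ?_)
    exact (Finset.prod_coe_sort (Nat.primesLE x) (fun p => p ^ Nat.log p x)).symm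

/-- `2 ^ x < (x + 1) * K ^ 3` for all `x` such that `π(x) * x ^ 2 ≤ n`. -/
theorem lower_nat {n K : ℕ}
    (hK : IsLeast {k : ℕ | 2 ≤ k ∧ Permutable (Equiv.Perm (Fin n)) k} K) (x : ℕ)
    (hx : π x * x ^ 2 ≤ n) : 2 ^ x < (x + 1) * K ^ 3 := by
  by_contra hcon
  push Not at hcon
  have h1 := hcon.trans (Chebyshev.two_pow_le_mul_lcmUpto x)
  have h2 : K ^ 3 ≤ Nat.lcmUpto x := Nat.le_of_mul_le_mul_left h1 (Nat.succ_pos x)
  exact not_permutable_primes x n K hx hK.1.1 h2 hK.1.2

/-! ### Growth -/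

theorem pi_bound (x : ℕ) (hx : 2 ≤ x) : (π x : ℝ) * Real.log x ≤ 5 * x := by
  have hx1 : (1 : ℝ) < x := by exact_mod_cast (show 1 < x by omega)
  have hx0 : (0 : ℝ) < x := by linarith
  have h := Chebyshev.pi_le_log4_mul_div (x := (x : ℝ)) hx1
  rw [Nat.floor_natCast, Real.log_sqrt hx0.le] at h
  have hlog : 0 < Real.log x := Real.log_pos hx1
  have h1 : Real.log 4 * x / (Real.log x / 2) * Real.log x = 2 * Real.log 4 * x := by
    field_simp
  have h2 : Real.log x ≤ 2 * √x := by
    have h3 : Real.log √x ≤ √x - 1 := Real.log_le_sub_one_of_pos (Real.sqrt_pos.2 hx0)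
    rw [Real.log_sqrt hx0.le] at h3
    linarith
  have h4 : √(x : ℝ) * Real.log x ≤ 2 * x := by
    have h5 : √(x : ℝ) * √(x : ℝ) = x := Real.mul_self_sqrt hx0.le
    calc √(x : ℝ) * Real.log x ≤ √(x : ℝ) * (2 * √x) :=
          mul_le_mul_of_nonneg_left h2 (Real.sqrt_nonneg _)
      _ = 2 * (√(x : ℝ) * √(x : ℝ)) := by ring
      _ = 2 * x := by rw [h5]
  have h6 : Real.log 4 ≤ 1.3863 := by
    have h7 : Real.log 4 = 2 * Real.log 2 := by
      rw [show (4 : ℝ) = 2 ^ 2 by norm_num, Real.log_pow]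
      push_cast
      ring
    rw [h7]
    have := Real.log_two_lt_d9
    linarith
  calc (π x : ℝ) * Real.log x
      ≤ (Real.log 4 * x / (Real.log x / 2) + √(x : ℝ)) * Real.log x :=
        mul_le_mul_of_nonneg_right h hlog.le
    _ = 2 * Real.log 4 * x + √(x : ℝ) * Real.log x := by rw [add_mul, h1]
    _ ≤ 2 * 1.3863 * x + 2 * x := by
        have h8 : 2 * Real.log 4 * x ≤ 2 * 1.3863 * x :=
          mul_le_mul_of_nonneg_right (by linarith) hx0.le
        linarith
    _ ≤ 5 * x := by nlinarith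

theorem two_pow_lower (x : ℕ) (hx : 6 ≤ x) : (x + 1) ^ 2 ≤ 2 ^ x := by
  induction x, hx using Nat.le_induction with
  | base => norm_num
  | succ x hx ih =>
    rw [pow_succ 2 x]
    nlinarith

theorem growth {n K : ℕ}
    (hK : IsLeast {k : ℕ | 2 ≤ k ∧ Permutable (Equiv.Perm (Fin n)) k} K) :
    Real.exp ((n * Real.log n) ^ (1 / 3 : ℝ) / 300) ≤ K := by
  have hK2 : (2 : ℝ) ≤ K := by exact_mod_cast hK.1.1
  have hl2 := Real.log_two_gt_d9
  have hl2' := Real.log_two_lt_d9
  have hnn : (0 : ℝ) ≤ n * Real.log n :=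
    mul_nonneg (Nat.cast_nonneg n) (Real.log_natCast_nonneg n)
  obtain ⟨t, ht⟩ : ∃ t, t = ((n : ℝ) * Real.log n) ^ (1 / 3 : ℝ) := ⟨_, rfl⟩
  have ht0 : 0 ≤ t := by
    rw [ht]
    exact Real.rpow_nonneg hnn _
  have ht3 : t ^ 3 = n * Real.log n := by
    rw [ht, ← Real.rpow_natCast, ← Real.rpow_mul hnn]
    norm_num
  rw [← ht]
  rcases Nat.lt_or_ge n 262144 with hn | hn
  · -- small `n`
    have h1 : t < 150 := by
      by_contra hcon
      push Not at hcon
      have h2 : (150 : ℝ) ^ 3 ≤ t ^ 3 := pow_le_pow_left₀ (by norm_num) hcon 3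
      rw [ht3] at h2
      rcases Nat.eq_zero_or_pos n with h0 | hpos
      · subst h0
        norm_num at h2
      · have h3 : Real.log n ≤ Real.log 262144 :=
          Real.log_le_log (by exact_mod_cast hpos) (by exact_mod_cast hn.le)
        have h4 : Real.log 262144 = 18 * Real.log 2 := by
          rw [show (262144 : ℝ) = 2 ^ 18 by norm_num, Real.log_pow]
          norm_num
        have h5 : Real.log n ≤ 12.48 := by
          rw [h4] at h3
          linarith
        have h6 : (n : ℝ) * Real.log n ≤ 262144 * 12.48 :=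
          mul_le_mul (by exact_mod_cast hn.le) h5 (Real.log_natCast_nonneg n) (by norm_num)
        norm_num at h2 h6
        linarith
    have h2 : Real.exp (t / 300) ≤ Real.exp (Real.log 2) :=
      Real.exp_le_exp.2 (by linarith)
    rw [Real.exp_log (by norm_num)] at h2
    linarith
  · -- large `n`
    have hn0 : (0 : ℝ) < n := by exact_mod_cast (show 0 < n by omega)
    have hnR : (262144 : ℝ) ≤ n := by exact_mod_cast hn
    have hlogn : 8 ≤ Real.log n := by
      have h3 : Real.log 262144 ≤ Real.log n := Real.log_le_log (by norm_num) hnR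
      have h4 : Real.log 262144 = 18 * Real.log 2 := by
        rw [show (262144 : ℝ) = 2 ^ 18 by norm_num, Real.log_pow]
        norm_num
      rw [h4] at h3
      linarith
    obtain ⟨s, hs⟩ : ∃ s, s = (n : ℝ) ^ (1 / 6 : ℝ) := ⟨_, rfl⟩
    have hs0 : 0 < s := by
      rw [hs]
      exact Real.rpow_pos_of_pos hn0 _
    have hs6 : s ^ 6 = n := by
      rw [hs, ← Real.rpow_natCast, ← Real.rpow_mul hn0.le]
      norm_num
    have hs8 : 8 ≤ s := by
      have h1 : (8 : ℝ) ^ 6 ≤ s ^ 6 := by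
        rw [hs6, show (8 : ℝ) ^ 6 = 262144 by norm_num]
        exact hnR
      exact (pow_le_pow_iff_left₀ (by norm_num) hs0.le (by norm_num)).1 h1
    have hlogs : Real.log s = Real.log n / 6 := by
      rw [hs, Real.log_rpow hn0]
      ring
    have hts : 2 * s ^ 2 ≤ t := by
      have h1 : (2 * s ^ 2) ^ 3 ≤ t ^ 3 := by
        rw [ht3, ← hs6]
        have : (2 * s ^ 2) ^ 3 = s ^ 6 * 8 := by ring
        rw [this, hs6]
        exact mul_le_mul_of_nonneg_left hlogn hn0.le
      exact (pow_le_pow_iff_left₀ (by positivity) ht0 (by norm_num)).1 h1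
    have ht128 : 128 ≤ t := by nlinarith
    let x := ⌊t / 4⌋₊
    have hx1 : (x : ℝ) ≤ t / 4 := Nat.floor_le (by linarith)
    have hx2 : t / 4 < x + 1 := Nat.lt_floor_add_one _
    have hxs : s ≤ x := by nlinarith
    have hx31 : (31 : ℝ) ≤ x := by
      have : (30 : ℝ) < x := by linarith
      have h : 30 < x := by exact_mod_cast this
      exact_mod_cast (show 31 ≤ x by omega)
    have hx31' : 31 ≤ x := by exact_mod_cast hx31
    have hlogx : Real.log n / 6 ≤ Real.log x := by
      rw [← hlogs]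
      exact Real.log_le_log hs0 hxs
    have hpi := pi_bound x (by omega)
    have hmain : π x * x ^ 2 ≤ n := by
      have h1 : (π x : ℝ) * (Real.log n / 6) ≤ 5 * x :=
        le_trans (mul_le_mul_of_nonneg_left hlogx (Nat.cast_nonneg _)) hpi
      have h2 : (x : ℝ) ^ 3 ≤ (t / 4) ^ 3 := pow_le_pow_left₀ (by linarith) hx1 3
      have h3 : (t / 4) ^ 3 = n * Real.log n / 64 := by
        rw [div_pow, ht3]
        norm_num
      rw [h3] at h2
      have h4 : (π x : ℝ) * (Real.log n / 6) * x ^ 2 ≤ 5 * x * x ^ 2 :=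
        mul_le_mul_of_nonneg_right h1 (by positivity)
      have h5 : (π x : ℝ) * x ^ 2 * Real.log n ≤ n * Real.log n := by
        have h6 : 5 * (x : ℝ) * x ^ 2 = 5 * x ^ 3 := by ring
        nlinarith
      have h7 : (π x : ℝ) * x ^ 2 ≤ n := le_of_mul_le_mul_right h5 (by linarith)
      exact_mod_cast h7
    have h1 := lower_nat hK x hmain
    have h2 := two_pow_lower x (by omega)
    have h3 : 2 ^ x < K ^ 6 := by
      have h4 : 2 ^ x * 2 ^ x < 2 ^ x * K ^ 6 := by
        calc 2 ^ x * 2 ^ x < ((x + 1) * K ^ 3) * ((x + 1) * K ^ 3) :=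
              Nat.mul_lt_mul'' h1 h1
          _ = (x + 1) ^ 2 * K ^ 6 := by ring
          _ ≤ 2 ^ x * K ^ 6 := Nat.mul_le_mul_right _ h2
      exact Nat.lt_of_mul_lt_mul_left h4
    have h4 : (x : ℝ) * Real.log 2 ≤ 6 * Real.log K := by
      have h5 : ((2 : ℝ) ^ x) ≤ (K : ℝ) ^ 6 := by exact_mod_cast h3.le
      have h6 := Real.log_le_log (by positivity) h5
      rw [Real.log_pow, Real.log_pow] at h6
      exact_mod_cast h6
    have h5 : t / 300 ≤ Real.log K := by nlinarith
    have hKpos : (0 : ℝ) < K := by linarith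
    calc Real.exp (t / 300) ≤ Real.exp (Real.log K) := Real.exp_le_exp.2 h5
      _ = K := Real.exp_log hKpos

/-- The index of permutability `K` of the symmetric group on `n` letters exists, it satisfies
`2 ^ x < (x + 1) * K ^ 3` for all `x` such that `π(x) * x ^ 2 ≤ n`, and it is at least
`exp ((n log n) ^ (1 / 3) / 300)`. -/
theorem result (n : ℕ) :
    ∃ K : ℕ, IsLeast {k : ℕ | 2 ≤ k ∧ Permutable (Equiv.Perm (Fin n)) k} K ∧
      (∀ x : ℕ, π x * x ^ 2 ≤ n → 2 ^ x < (x + 1) * K ^ 3) ∧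
      Real.exp ((n * Real.log n) ^ (1 / 3 : ℝ) / 300) ≤ K := by
  obtain ⟨K, hK, -, -⟩ := Pool.Agent.Results.MP_c6e9f4_al.Bounds.result n
  exact ⟨K, hK, fun x hx => lower_nat hK x hx, growth hK⟩

end Pool.Agent.Results.MP_c6e9f4_al.PrimeCountingLowerBound
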