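import Mathlib
import Pool.Agent.Results.MP_c6e9f4_al.Bounds

/-!
# An upper bound for the index of permutability of the symmetric groups

`Permutable G k` (file `Bounds.lean`): every `k`-tuple of elements of the group `G` has a
non-identity reordering with the same product.

The theorem: the index of permutability `K` of the symmetric group on `n = a + b` letters satisfies
`K ≤ n! / a! + n! / b!`; hence `K ^ 2 ≤ (n + 4) * 2 ^ n * n!`, so `K` is at most
`(n!) ^ (1 / 2 + o(1))`.

Proof: let `Y` and `Z` be subgroups of `G` which commute elementwise and have trivial intersection.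
If `k ≥ [G : Y] + [G : Z]`, then for some `i` the partial product `P i` of a given `k`-tuple has
other partial products both in `P i * Y` and in `P i * Z`; this gives two adjacent blocks which
commute and may be interchanged.
-/

set_option autoImplicit false

open scoped Nat

namespace Pool.Agent.Results.MP_c6e9f4_al.SquareRootUpperBound

open Pool.Agent.Results.MP_c6e9f4_al.Bounds (Permutable swap_blocks)

section general

variable {G : Type} [Group G] {k : ℕ}

/-- The partial products. -/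
def pp (x : Fin k → G) (t : ℕ) : G := (((List.finRange k).take t).map x).prod

/-- Two adjacent blocks which commute. -/
theorem of_adjacent (x : Fin k → G) (i s t : ℕ) (hs : 0 < s) (ht : 0 < t) (hk : i + s + t ≤ k)
    (hc : ((pp x i)⁻¹ * pp x (i + s)) * ((pp x (i + s))⁻¹ * pp x (i + s + t)) =
      ((pp x (i + s))⁻¹ * pp x (i + s + t)) * ((pp x i)⁻¹ * pp x (i + s))) :
    ∃ σ : Equiv.Perm (Fin k), σ ≠ 1 ∧
      (List.ofFn x).prod = (List.ofFn (fun i => x (σ i))).prod := by
  let F := List.finRange k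
  have hF : F = F.take i ++ ((F.drop i).take s ++ ((F.drop (i + s)).take t ++
      F.drop (i + s + t))) := by
    rw [← List.drop_drop (i := t) (j := i + s), List.take_append_drop,
      ← List.drop_drop (i := s) (j := i), List.take_append_drop, List.take_append_drop]
  have hq1 : pp x (i + s) = pp x i * (((F.drop i).take s).map x).prod := by
    simp only [pp]
    rw [List.take_add, List.map_append, List.prod_append]
  have hq2 : pp x (i + s + t) = pp x (i + s) * (((F.drop (i + s)).take t).map x).prod := by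
    simp only [pp]
    rw [List.take_add, List.map_append, List.prod_append]
  have hlen : F.length = k := List.length_finRange
  refine swap_blocks x (F.take i) ((F.drop i).take s) ((F.drop (i + s)).take t)
    (F.drop (i + s + t)) hF ?_ ?_ ?_
  · intro h0
    have := congrArg List.length h0
    rw [List.length_take, List.length_drop, hlen, List.length_nil] at this
    omega
  · intro h0
    have := congrArg List.length h0
    rw [List.length_take, List.length_drop, hlen, List.length_nil] at this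
    omega
  · rw [hq2, inv_mul_cancel_left, hq1, inv_mul_cancel_left] at hc
    exact hc

/-- Three partial products in the same coset of a commutative subgroup. -/
theorem of_three (x : Fin k → G) (A : Subgroup G) (hA : ∀ a ∈ A, ∀ b ∈ A, a * b = b * a) (g : G)
    (a b d : ℕ) (hab : a ≠ b) (had : a ≠ d) (hbd : b ≠ d) (ha : a ≤ k ∧ g⁻¹ * pp x a ∈ A)
    (hb : b ≤ k ∧ g⁻¹ * pp x b ∈ A) (hd : d ≤ k ∧ g⁻¹ * pp x d ∈ A) :
    ∃ σ : Equiv.Perm (Fin k), σ ≠ 1 ∧
      (List.ofFn x).prod = (List.ofFn (fun i => x (σ i))).prod := by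
  have aux : ∀ a b d : ℕ, a < b → b < d → (a ≤ k ∧ g⁻¹ * pp x a ∈ A) →
      (b ≤ k ∧ g⁻¹ * pp x b ∈ A) → (d ≤ k ∧ g⁻¹ * pp x d ∈ A) →
      ∃ σ : Equiv.Perm (Fin k), σ ≠ 1 ∧
        (List.ofFn x).prod = (List.ofFn (fun i => x (σ i))).prod := by
    intro a b d hab hbd ha hb hd
    have e1 : a + (b - a) = b := by omega
    have e2 : a + (b - a) + (d - b) = d := by omega
    have h1 : (pp x a)⁻¹ * pp x b ∈ A := by
      have := A.mul_mem (A.inv_mem ha.2) hb.2
      rwa [mul_inv_rev, inv_inv, mul_assoc, mul_inv_cancel_left] at this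
    have h2 : (pp x b)⁻¹ * pp x d ∈ A := by
      have := A.mul_mem (A.inv_mem hb.2) hd.2
      rwa [mul_inv_rev, inv_inv, mul_assoc, mul_inv_cancel_left] at this
    refine of_adjacent x a (b - a) (d - b) (by omega) (by omega) (by omega) ?_
    rw [e2, e1]
    exact hA _ h1 _ h2
  rcases lt_or_gt_of_ne hab with h1 | h1 <;> rcases lt_or_gt_of_ne had with h2 | h2 <;>
    rcases lt_or_gt_of_ne hbd with h3 | h3
  · exact aux a b d h1 h3 ha hb hd
  · exact aux a d b h2 h3 ha hd hb
  · omega
  · exact aux d a b h2 h1 hd ha hb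
  · exact aux b a d h1 h2 hb ha hd
  · omega
  · exact aux b d a h3 h2 hb hd ha
  · exact aux d b a h3 h1 hd hb ha

/-- Three partial products whose quotients commute. -/
theorem of_commute (x : Fin k → G) (a b d : ℕ) (hab : a ≠ b) (had : a ≠ d) (hbd : b ≠ d)
    (ha : a ≤ k) (hb : b ≤ k) (hd : d ≤ k)
    (hc : ((pp x a)⁻¹ * pp x b) * ((pp x a)⁻¹ * pp x d) =
      ((pp x a)⁻¹ * pp x d) * ((pp x a)⁻¹ * pp x b)) :
    ∃ σ : Equiv.Perm (Fin k), σ ≠ 1 ∧
      (List.ofFn x).prod = (List.ofFn (fun i => x (σ i))).prod := by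
  let S : Set G := {(pp x a)⁻¹ * pp x b, (pp x a)⁻¹ * pp x d}
  have hS : ∀ u ∈ S, ∀ v ∈ S, u * v = v * u := by
    rintro u (rfl | rfl) v (rfl | rfl)
    · rfl
    · exact hc
    · exact hc.symm
    · rfl
  have hA : ∀ u ∈ Subgroup.closure S, ∀ v ∈ Subgroup.closure S, u * v = v * u := by
    intro u hu v hv
    have h1 : ∀ u ∈ S, ∀ v ∈ Subgroup.closure S, u * v = v * u := by
      intro u hu v hv
      have h2 : Subgroup.closure S ≤ Subgroup.centralizer {u} := by
        rw [Subgroup.closure_le]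
        intro w hw
        rw [SetLike.mem_coe, Subgroup.mem_centralizer_iff]
        rintro z rfl
        exact hS z hu w hw
      exact Subgroup.mem_centralizer_iff.1 (h2 hv) u rfl
    have h3 : Subgroup.closure S ≤ Subgroup.centralizer {v} := by
      rw [Subgroup.closure_le]
      intro w hw
      rw [SetLike.mem_coe, Subgroup.mem_centralizer_iff]
      rintro z rfl
      exact (h1 w hw z hv).symm
    exact (Subgroup.mem_centralizer_iff.1 (h3 hu) v rfl).symm
  refine of_three x (Subgroup.closure S) hA (pp x a) a b d hab had hbd ⟨ha, ?_⟩ ⟨hb, ?_⟩ ⟨hd, ?_⟩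
  · rw [inv_mul_cancel]
    exact Subgroup.one_mem _
  · exact Subgroup.subset_closure (Or.inl rfl)
  · exact Subgroup.subset_closure (Or.inr rfl)

/-- **The general bound.** -/
theorem permutable_of_commuting [Finite G] (Y Z : Subgroup G)
    (hYZ : ∀ y ∈ Y, ∀ z ∈ Z, y * z = z * y) (hd : ∀ g ∈ Y, g ∈ Z → g = 1) (hk2 : 2 ≤ k)
    (hk : Y.index + Z.index ≤ k) : Permutable G k := by
  classical
  intro x
  by_contra hcon
  let P : Fin (k + 1) → G := fun t => pp x t
  have huniq : ∀ i : Fin (k + 1), (∀ j, j ≠ i → (P j : G ⧸ Y) ≠ (P i : G ⧸ Y)) ∨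
      (∀ j, j ≠ i → (P j : G ⧸ Z) ≠ (P i : G ⧸ Z)) := by
    intro i
    by_contra h
    push Not at h
    obtain ⟨⟨j, hj, hjY⟩, ⟨l, hl, hlZ⟩⟩ := h
    have h1 : (P i)⁻¹ * P j ∈ Y := QuotientGroup.eq.mp hjY.symm
    have h2 : (P i)⁻¹ * P l ∈ Z := QuotientGroup.eq.mp hlZ.symm
    have hne : ∀ u v : Fin (k + 1), u ≠ v → (u : ℕ) ≠ (v : ℕ) := fun u v h h' => h (Fin.ext h')
    have hle : ∀ u : Fin (k + 1), (u : ℕ) ≤ k := fun u => Nat.lt_succ_iff.1 u.2
    by_cases hjl : j = l
    · subst hjl
      have h3 := hd _ h1 h2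
      obtain ⟨m, hm⟩ : ∃ m : Fin (k + 1), m ∉ ({i, j} : Finset (Fin (k + 1))) := by
        by_contra hall
        push Not at hall
        have h4 : (Finset.univ : Finset (Fin (k + 1))) ⊆ {i, j} := fun m _ => hall m
        have h5 := Finset.card_le_card h4
        rw [Finset.card_univ, Fintype.card_fin] at h5
        have h6 := Finset.card_le_two (a := i) (b := j)
        omega
      rw [Finset.mem_insert, Finset.mem_singleton, not_or] at hm
      apply hcon
      refine of_commute x i j m (hne _ _ (Ne.symm hj)) (hne _ _ (Ne.symm hm.1))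
        (hne _ _ (Ne.symm hm.2)) (hle i) (hle j) (hle m) ?_
      change ((P i)⁻¹ * P j) * _ = _ * ((P i)⁻¹ * P j)
      rw [h3, one_mul, mul_one]
    · apply hcon
      exact of_commute x i j l (hne _ _ (Ne.symm hj)) (hne _ _ (Ne.symm hl)) (hne _ _ hjl)
        (hle i) (hle j) (hle l) (hYZ _ h1 _ h2)
  let f : Fin (k + 1) → (G ⧸ Y) ⊕ (G ⧸ Z) := fun i =>
    if (∀ j, j ≠ i → (P j : G ⧸ Y) ≠ (P i : G ⧸ Y)) then Sum.inl (P i : G ⧸ Y)
    else Sum.inr (P i : G ⧸ Z)
  have hf : Function.Injective f := by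
    intro i i' hii
    by_contra hne
    by_cases h1 : ∀ j, j ≠ i → (P j : G ⧸ Y) ≠ (P i : G ⧸ Y)
    · have e1 : f i = Sum.inl (P i : G ⧸ Y) := if_pos h1
      by_cases h2 : ∀ j, j ≠ i' → (P j : G ⧸ Y) ≠ (P i' : G ⧸ Y)
      · have e2 : f i' = Sum.inl (P i' : G ⧸ Y) := if_pos h2
        rw [e1, e2] at hii
        exact h2 i hne (Sum.inl_injective hii)
      · have e2 : f i' = Sum.inr (P i' : G ⧸ Z) := if_neg h2
        rw [e1, e2] at hii
        exact absurd hii (by simp)
    · have e1 : f i = Sum.inr (P i : G ⧸ Z) := if_neg h1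
      by_cases h2 : ∀ j, j ≠ i' → (P j : G ⧸ Y) ≠ (P i' : G ⧸ Y)
      · have e2 : f i' = Sum.inl (P i' : G ⧸ Y) := if_pos h2
        rw [e1, e2] at hii
        exact absurd hii (by simp)
      · have e2 : f i' = Sum.inr (P i' : G ⧸ Z) := if_neg h2
        rw [e1, e2] at hii
        rcases huniq i' with h3 | h3
        · exact h2 h3
        · exact h3 i hne (Sum.inr_injective hii)
  have hcard := Nat.card_le_card_of_injective f hf
  rw [Nat.card_sum, Nat.card_fin] at hcard
  have h1 : Nat.card (G ⧸ Y) = Y.index := rfl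
  have h2 : Nat.card (G ⧸ Z) = Z.index := rfl
  omega

end general

section symmetric

variable (a b : ℕ)

/-- The symmetric group of degree `a` in the symmetric group of degree `a + b`. -/
def homY : Equiv.Perm (Fin a) →* Equiv.Perm (Fin a ⊕ Fin b) :=
  (Equiv.Perm.sumCongrHom (Fin a) (Fin b)).comp (MonoidHom.inl _ _)

/-- The symmetric group of degree `b` in the symmetric group of degree `a + b`. -/
def homZ : Equiv.Perm (Fin b) →* Equiv.Perm (Fin a ⊕ Fin b) :=
  (Equiv.Perm.sumCongrHom (Fin a) (Fin b)).comp (MonoidHom.inr _ _)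

theorem homY_injective : Function.Injective (homY a b) := by
  intro g h hgh
  have := Equiv.Perm.sumCongrHom_injective (α := Fin a) (β := Fin b) hgh
  exact congrArg Prod.fst this

theorem homZ_injective : Function.Injective (homZ a b) := by
  intro g h hgh
  have := Equiv.Perm.sumCongrHom_injective (α := Fin a) (β := Fin b) hgh
  exact congrArg Prod.snd this

theorem index_eq {H G : Type} [Group H] [Group G] [Finite G] (f : H →* G)
    (hf : Function.Injective f) : f.range.index = Nat.card G / Nat.card H := by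
  have hfin : Finite H := Finite.of_injective f hf
  have h1 := f.range.index_mul_card
  have h2 : Nat.card f.range = Nat.card H :=
    (Nat.card_congr (MonoidHom.ofInjective hf).toEquiv).symm
  rw [h2] at h1
  rw [← h1, Nat.mul_div_cancel _ Nat.card_pos]

theorem permutable_sum {k : ℕ} (hk2 : 2 ≤ k) (hk : (a + b)! / a ! + (a + b)! / b ! ≤ k) :
    Permutable (Equiv.Perm (Fin a ⊕ Fin b)) k := by
  classical
  have hc : Nat.card (Equiv.Perm (Fin a ⊕ Fin b)) = (a + b)! := by
    rw [Nat.card_eq_fintype_card, Fintype.card_perm, Fintype.card_sum, Fintype.card_fin,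
      Fintype.card_fin]
  have hcf : ∀ m : ℕ, Nat.card (Equiv.Perm (Fin m)) = m ! := fun m => by
    rw [Nat.card_eq_fintype_card, Fintype.card_perm, Fintype.card_fin]
  refine permutable_of_commuting (homY a b).range (homZ a b).range ?_ ?_ hk2 ?_
  · rintro _ ⟨g, rfl⟩ _ ⟨h, rfl⟩
    change Equiv.Perm.sumCongrHom _ _ (g, 1) * Equiv.Perm.sumCongrHom _ _ (1, h) =
      Equiv.Perm.sumCongrHom _ _ (1, h) * Equiv.Perm.sumCongrHom _ _ (g, 1)
    rw [← map_mul, ← map_mul, Prod.mk_mul_mk, Prod.mk_mul_mk, one_mul, mul_one, one_mul, mul_one]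
  · rintro _ ⟨g, rfl⟩ ⟨h, hgh⟩
    have h1 : Equiv.Perm.sumCongrHom (Fin a) (Fin b) (1, h) =
      Equiv.Perm.sumCongrHom (Fin a) (Fin b) (g, 1) := hgh
    have h2 := Equiv.Perm.sumCongrHom_injective h1
    have h3 : (1 : Equiv.Perm (Fin a)) = g := congrArg Prod.fst h2
    rw [← h3, map_one]
  · rw [index_eq _ (homY_injective a b), index_eq _ (homZ_injective a b), hc, hcf, hcf]
    exact hk

theorem permutable_perm {n k : ℕ} (hn : a + b = n) (hk2 : 2 ≤ k)
    (hk : n ! / a ! + n ! / b ! ≤ k) : Permutable (Equiv.Perm (Fin n)) k := by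
  subst hn
  let e : Equiv.Perm (Fin (a + b)) ≃* Equiv.Perm (Fin a ⊕ Fin b) :=
    Equiv.permCongrHom finSumFinEquiv.symm
  exact Pool.Agent.Results.MP_c6e9f4_al.Bounds.Permutable.of_injective e.toMonoidHom e.injective
    (permutable_sum a b hk2 hk)

end symmetric

theorem two_le (n a b : ℕ) (h : a + b = n) : 2 ≤ n ! / a ! + n ! / b ! := by
  have h1 : 1 ≤ n ! / a ! := Nat.div_pos (Nat.factorial_le (by omega)) (Nat.factorial_pos _)
  have h2 : 1 ≤ n ! / b ! := Nat.div_pos (Nat.factorial_le (by omega)) (Nat.factorial_pos _)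
  omega

theorem key (a b n : ℕ) (h : a + b = n) (hab : b = a ∨ b = a + 1) :
    (a ! + b !) ^ 2 ≤ (n + 4) * (a ! * b !) := by
  subst h
  rcases hab with rfl | rfl
  · have h1 : (b ! + b !) ^ 2 = 4 * (b ! * b !) := by ring
    rw [h1]
    exact Nat.mul_le_mul_right _ (by omega)
  · have h1 : (a ! + (a + 1)!) ^ 2 = (a + 2) ^ 2 * (a ! * a !) := by
      rw [Nat.factorial_succ]
      ring
    have h2 : (a + (a + 1) + 4) * (a ! * (a + 1)!) = ((2 * a + 5) * (a + 1)) * (a ! * a !) := by
      rw [Nat.factorial_succ]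
      ring
    rw [h1, h2]
    exact Nat.mul_le_mul_right _ (by nlinarith)

theorem square_bound (n K : ℕ)
    (h : K ≤ n ! / (n / 2)! + n ! / (n - n / 2)!) : K ^ 2 ≤ (n + 4) * 2 ^ n * n ! := by
  have hle : n / 2 ≤ n := Nat.div_le_self n 2
  have h1 : n.choose (n / 2) * (n / 2)! * (n - n / 2)! = n ! := Nat.choose_mul_factorial_mul_factorial hle
  have h2 : n ! / (n / 2)! = n.choose (n / 2) * (n - n / 2)! := by
    apply Nat.div_eq_of_eq_mul_left (Nat.factorial_pos _)
    rw [← h1]
    ring
  have h3 : n ! / (n - n / 2)! = n.choose (n / 2) * (n / 2)! := by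
    apply Nat.div_eq_of_eq_mul_left (Nat.factorial_pos _)
    exact h1.symm
  have h4 : K ≤ n.choose (n / 2) * ((n / 2)! + (n - n / 2)!) := by
    rw [h2, h3] at h
    calc K ≤ _ := h
      _ = _ := by ring
  have h5 := key (n / 2) (n - n / 2) n (by omega) (by omega)
  have h6 : n.choose (n / 2) ≤ 2 ^ n := Nat.choose_le_two_pow n (n / 2)
  calc K ^ 2 ≤ (n.choose (n / 2) * ((n / 2)! + (n - n / 2)!)) ^ 2 := Nat.pow_le_pow_left h4 2
    _ = n.choose (n / 2) * n.choose (n / 2) * ((n / 2)! + (n - n / 2)!) ^ 2 := by ring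
    _ ≤ 2 ^ n * n.choose (n / 2) * ((n + 4) * ((n / 2)! * (n - n / 2)!)) :=
        Nat.mul_le_mul (Nat.mul_le_mul_right _ h6) h5
    _ = (n + 4) * 2 ^ n * (n.choose (n / 2) * (n / 2)! * (n - n / 2)!) := by ring
    _ = (n + 4) * 2 ^ n * n ! := by rw [h1]

/-- The index of permutability `K` of the symmetric group on `n` letters exists, it is at most
`n! / a! + n! / b!` for all `a`, `b` with `a + b = n`, and its square is at most
`(n + 4) * 2 ^ n * n!`. -/
theorem result (n : ℕ) :
    ∃ K : ℕ, IsLeast {k : ℕ | 2 ≤ k ∧ Permutable (Equiv.Perm (Fin n)) k} K ∧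
      (∀ a b : ℕ, a + b = n → K ≤ n ! / a ! + n ! / b !) ∧
      K ^ 2 ≤ (n + 4) * 2 ^ n * n ! := by
  classical
  have hmem : ∀ a b : ℕ, a + b = n → 2 ≤ n ! / a ! + n ! / b ! ∧
      Permutable (Equiv.Perm (Fin n)) (n ! / a ! + n ! / b !) := fun a b h =>
    ⟨two_le n a b h, permutable_perm a b h (two_le n a b h) le_rfl⟩
  have hab : n / 2 + (n - n / 2) = n := by omega
  have hex : ∃ k, 2 ≤ k ∧ Permutable (Equiv.Perm (Fin n)) k := ⟨_, hmem _ _ hab⟩
  exact ⟨Nat.find hex, ⟨Nat.find_spec hex, fun k hk => Nat.find_min' hex hk⟩,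
    fun a b h => Nat.find_min' hex (hmem a b h),
    square_bound n _ (Nat.find_min' hex (hmem _ _ hab))⟩

end Pool.Agent.Results.MP_c6e9f4_al.SquareRootUpperBound
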